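import Pool.Agent.MP_13e7a1_an.H82.Spec

/-!
Transfer from the manifold to a chart.
-/

open scoped Manifold ContDiff Topology Matrix
open Set Metric MeasureTheory Filter

noncomputable section

namespace Pool.Agent.MP_13e7a1_an.H61

open Pool.Agent.MP_13e7a1_an.H82

theorem apply_eq_sum (A : E →L[ℝ] E) (Z : E) (i : Fin 4) :
    A Z i = ∑ j, mat A i j * Z j := by
  have hZ : Z = ∑ j, Z j • bas j := by
    ext k
    simp [bas, Pi.single_apply]
  conv_lhs => rw [hZ]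
  simp [mat, mul_comm]

theorem mat_sq (A : E →L[ℝ] E) (h : ∀ Z, A (A Z) = -Z) : mat A * mat A = -1 := by
  ext i j
  have h1 := apply_eq_sum A (A (bas j)) i
  rw [h] at h1
  rw [Matrix.mul_apply]
  have h2 : ∑ k, mat A i k * mat A k j = ∑ k, mat A i k * A (bas j) k := rfl
  rw [h2, ← h1]
  simp [bas, Pi.single_apply, Matrix.one_apply]

theorem continuous_pf_om {J : E → E →L[ℝ] E} (hJ : Continuous J) :
    Continuous fun y => pf (om (mat (J y))) (om (mat (J y))) := by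
  have h : ∀ i j, Continuous fun y => mat (J y) i j := by
    intro i j
    have h1 : Continuous fun y => J y (bas j) := hJ.clm_apply continuous_const
    exact (EuclideanSpace.proj i : E →L[ℝ] ℝ).continuous.comp h1
  simp only [pf, om, Matrix.sub_apply, Matrix.transpose_apply]
  fun_prop

universe uu

variable {M : Type uu} [TopologicalSpace M] [ChartedSpace E M] [IsManifold 𝓘(ℝ, E) ∞ M]

theorem symm_comp (x₀ : M) {y : E} (hy : y ∈ (chartAt E x₀).target)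
    (v : TangentSpace 𝓘(ℝ, E) ((chartAt E x₀).symm y)) :
    mfderiv 𝓘(ℝ, E) 𝓘(ℝ, E) (chartAt E x₀).symm y
      (mfderiv 𝓘(ℝ, E) 𝓘(ℝ, E) (chartAt E x₀) ((chartAt E x₀).symm y) v) = v := by
  have he : (chartAt E x₀).MDifferentiable 𝓘(ℝ, E) 𝓘(ℝ, E) := mdifferentiable_chart x₀
  have h := he.symm_comp_deriv ((chartAt E x₀).map_target hy)
  have h2 : mfderiv 𝓘(ℝ, E) 𝓘(ℝ, E) (chartAt E x₀).symm (chartAt E x₀ ((chartAt E x₀).symm y))
      (mfderiv 𝓘(ℝ, E) 𝓘(ℝ, E) (chartAt E x₀) ((chartAt E x₀).symm y) v) = v :=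
    congrArg (fun L => L v) h
  have key : ∀ y' : E, y' = y → ∀ w : E,
      (mfderiv 𝓘(ℝ, E) 𝓘(ℝ, E) (chartAt E x₀).symm y' w : E) =
        (mfderiv 𝓘(ℝ, E) 𝓘(ℝ, E) (chartAt E x₀).symm y w : E) := by
    intro y' hy' w
    subst hy'
    rfl
  exact (key _ ((chartAt E x₀).right_inv hy) _).symm.trans h2

theorem comp_symm (x₀ : M) {y : E} (hy : y ∈ (chartAt E x₀).target) (v : E) :
    mfderiv 𝓘(ℝ, E) 𝓘(ℝ, E) (chartAt E x₀) ((chartAt E x₀).symm y)
      (mfderiv 𝓘(ℝ, E) 𝓘(ℝ, E) (chartAt E x₀).symm y v) = v := by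
  have he : (chartAt E x₀).MDifferentiable 𝓘(ℝ, E) 𝓘(ℝ, E) := mdifferentiable_chart x₀
  exact congrArg (fun L => L v) (he.comp_symm_deriv hy)

omit [IsManifold 𝓘(ℝ, E) ∞ M] in
theorem chartJ_apply (J : End M) (x₀ : M) (y Z : E) :
    chartJ J x₀ y Z = mfderiv 𝓘(ℝ, E) 𝓘(ℝ, E) (chartAt E x₀) ((chartAt E x₀).symm y)
      (J ((chartAt E x₀).symm y) (mfderiv 𝓘(ℝ, E) 𝓘(ℝ, E) (chartAt E x₀).symm y Z)) := rfl

theorem chartJ_sq (J : End M) (hJ : IsAlmostComplex J) (x₀ : M) {y : E}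
    (hy : y ∈ (chartAt E x₀).target) (Z : E) : chartJ J x₀ y (chartJ J x₀ y Z) = -Z := by
  rw [chartJ_apply, chartJ_apply, symm_comp x₀ hy, hJ.1, map_neg, comp_symm x₀ hy]
  rfl

theorem isDisc_symm (J : End M) (x₀ : M) (γ : ℂ → E) (hγ : ContDiff ℝ ∞ γ)
    (hm : MapsTo γ (ball 0 1) (chartAt E x₀).target)
    (hh : ∀ ζ ∈ ball (0 : ℂ) 1, ∀ v : ℂ,
      fderiv ℝ γ ζ (Complex.I * v) = chartJ J x₀ (γ ζ) (fderiv ℝ γ ζ v)) :
    IsDisc J ((chartAt E x₀).symm ∘ γ) := by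
  have he : (chartAt E x₀).MDifferentiable 𝓘(ℝ, E) 𝓘(ℝ, E) := mdifferentiable_chart x₀
  refine ⟨(contMDiffOn_chart_symm (I := 𝓘(ℝ, E)) (n := ∞)).comp hγ.contMDiff.contMDiffOn hm, ?_⟩
  intro ζ hζ w
  have hd : MDifferentiableAt 𝓘(ℝ, ℂ) 𝓘(ℝ, E) γ ζ :=
    hγ.contMDiff.contMDiffAt.mdifferentiableAt (by simp)
  have h1 : ∀ v : ℂ, mfderiv 𝓘(ℝ, ℂ) 𝓘(ℝ, E) ((chartAt E x₀).symm ∘ γ) ζ v =
      mfderiv 𝓘(ℝ, E) 𝓘(ℝ, E) (chartAt E x₀).symm (γ ζ) (fderiv ℝ γ ζ v) := by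
    intro v
    rw [mfderiv_comp_apply ζ (he.mdifferentiableAt_symm (hm hζ)) hd, mfderiv_eq_fderiv]
    rfl
  rw [h1, h1, hh ζ hζ w, chartJ_apply, symm_comp x₀ (hm hζ)]
  rfl

theorem chart (hA : SLinA) : SChart.{uu} := by
  intro M _ _ _ J hJ x₀ W hW hx₀
  set p : E := chartAt E x₀ x₀ with hp
  have hopen : IsOpen ((chartAt E x₀).target ∩ (chartAt E x₀).symm ⁻¹' W) :=
    (chartAt E x₀).isOpen_inter_preimage_symm hW
  have hpmem : p ∈ (chartAt E x₀).target ∩ (chartAt E x₀).symm ⁻¹' W := by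
    refine ⟨mem_chart_target E x₀, ?_⟩
    show (chartAt E x₀).symm (chartAt E x₀ x₀) ∈ W
    rw [(chartAt E x₀).left_inv (mem_chart_source E x₀)]
    exact hx₀
  obtain ⟨ρ, hρ, hsub⟩ := Metric.isOpen_iff.1 hopen p hpmem
  let b : ContDiffBump p := ⟨ρ / 4, ρ / 2, by positivity, by linarith⟩
  let ret : E → E := fun y => p + b y • (y - p)
  have hret : ContDiff ℝ ∞ ret :=
    contDiff_const.add (b.contDiff.smul (contDiff_id.sub contDiff_const))
  have hretmem : ∀ y, ret y ∈ ball p ρ := by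
    intro y
    rw [mem_ball_iff_norm]
    have h1 : ret y - p = b y • (y - p) := by simp [ret]
    rw [h1, norm_smul, Real.norm_of_nonneg b.nonneg]
    by_cases hy : ρ / 2 ≤ dist y p
    · rw [b.zero_of_le_dist hy]
      simpa using hρ
    · push Not at hy
      rw [dist_eq_norm] at hy
      have h2 : b y ≤ 1 := b.le_one
      have h3 : b y * ‖y - p‖ ≤ 1 * ‖y - p‖ := mul_le_mul_of_nonneg_right h2 (norm_nonneg _)
      linarith
  have hretid : ∀ y ∈ ball p (ρ / 4), ret y = y := by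
    intro y hy
    have h1 : b y = 1 := b.one_of_mem_closedBall (ball_subset_closedBall hy)
    simp [ret, h1]
  have htar : ∀ y, ret y ∈ (chartAt E x₀).target := fun y => (hsub (hretmem y)).1
  let J' : E → E →L[ℝ] E := fun y => chartJ J x₀ (ret y)
  have hJ' : ContDiff ℝ ∞ J' := (hJ.2 x₀).comp_contDiff hret htar
  have hsq : ∀ y Z, J' y (J' y Z) = -Z := fun y Z => chartJ_sq J hJ x₀ (htar y) Z
  let g : E → ℝ := fun y => pf (om (mat (J' y))) (om (mat (J' y)))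
  have hg : Continuous g := continuous_pf_om hJ'.continuous
  have hg0 : ∀ y, g y ≠ 0 := fun y => hA.ne _ (mat_sq _ (hsq y))
  have hsign : ∃ o : ℝ, (o = 1 ∨ o = -1) ∧ ∀ y, 0 < o * g y := by
    rcases lt_or_gt_of_ne (hg0 p) with hneg | hpos
    · refine ⟨-1, Or.inr rfl, fun y => ?_⟩
      by_contra hcon
      have h1 : 0 ≤ g y := by linarith [not_lt.1 hcon]
      obtain ⟨z, hz⟩ := intermediate_value_univ p y hg ⟨hneg.le, h1⟩
      exact hg0 z hz
    · refine ⟨1, Or.inl rfl, fun y => ?_⟩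
      by_contra hcon
      have h1 : g y ≤ 0 := by linarith [not_lt.1 hcon]
      obtain ⟨z, hz⟩ := intermediate_value_univ y p hg ⟨h1, hpos.le⟩
      exact hg0 z hz
  obtain ⟨o, ho, hopos⟩ := hsign
  let c : Ctx := ⟨J', o, hJ', hsq, ho, hopos⟩
  have hcJ : ∀ y ∈ ball p (ρ / 4), chartJ J x₀ y = c.J y := by
    intro y hy
    show chartJ J x₀ y = chartJ J x₀ (ret y)
    rw [hretid y hy]
  refine ⟨c, ρ / 4, ret, by positivity, hret, hretid, fun y => hsub (hretmem y), hcJ, ?_⟩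
  intro Ω u r hr hu hmaps
  have hball : ball p r ⊆ (chartAt E x₀).target := by
    intro y hy
    have h1 : y ∈ ball p (ρ / 4) := ball_subset_ball hr hy
    rw [← hretid y h1]
    exact htar y
  refine ⟨hu.1.comp ((chartAt E x₀).continuousOn_symm.mono hball) hmaps, ?_⟩
  intro γ hγ hγm hhol s hs0 hs1
  have hdisc : IsDisc J ((chartAt E x₀).symm ∘ γ) := by
    refine isDisc_symm J x₀ γ hγ (fun ζ hζ => hball (hγm hζ)) ?_
    intro ζ hζ v
    rw [hcJ _ (ball_subset_ball hr (hγm hζ))]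
    exact hhol ζ hζ v
  have hsub' := hu.2 _ hdisc (fun ζ hζ => hmaps (hγm hζ))
  exact hsub'.2 0 s hs0 (closedBall_subset_ball hs1)

end Pool.Agent.MP_13e7a1_an.H61
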