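import Pool.Agent.MP_13e7a1_an.H82.Spec

/-!
The global step: from the local statement in a chart to the manifold.
-/

open scoped Manifold ContDiff Topology Matrix
open Set Metric MeasureTheory Filter

noncomputable section

namespace Pool.Agent.MP_13e7a1_an.H61

open Pool.Agent.MP_13e7a1_an.H82

theorem fderiv_lin {f g : E → ℝ} (hf : ContDiff ℝ ∞ f) (hg : ContDiff ℝ ∞ g) (a b : ℝ) :
    fderiv ℝ (fun y => a * f y + b * g y) = fun y => a • fderiv ℝ f y + b • fderiv ℝ g y := by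
  funext y
  have h1 := (hf.differentiable (by simp) y).hasFDerivAt
  have h2 := (hg.differentiable (by simp) y).hasFDerivAt
  exact ((h1.const_mul a).add (h2.const_mul b)).fderiv

theorem L_lin (c : Ctx) (Z : E) {f g : E → ℝ} (hf : ContDiff ℝ ∞ f) (hg : ContDiff ℝ ∞ g)
    (a b : ℝ) (x : E) :
    c.L Z (fun y => a * f y + b * g y) x = a * c.L Z f x + b * c.L Z g x := by
  have hf' : ContDiff ℝ ∞ (fderiv ℝ f) := (contDiff_infty_iff_fderiv.1 hf).2
  have hg' : ContDiff ℝ ∞ (fderiv ℝ g) := (contDiff_infty_iff_fderiv.1 hg).2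
  have h1 := (hf'.differentiable (by simp) x).hasFDerivAt
  have h2 := (hg'.differentiable (by simp) x).hasFDerivAt
  have h3 : fderiv ℝ (fun y => a • fderiv ℝ f y + b • fderiv ℝ g y) x =
      a • fderiv ℝ (fderiv ℝ f) x + b • fderiv ℝ (fderiv ℝ g) x :=
    ((h1.const_smul a).add (h2.const_smul b)).fderiv
  simp only [Ctx.L, fderiv_lin hf hg, h3, add_apply, smul_apply, smul_eq_mul]
  ring

theorem contDiff_sq (p : E) : ContDiff ℝ ∞ fun y : E => ‖y - p‖ ^ 2 :=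
  (contDiff_norm_sq ℝ).comp (contDiff_id.sub contDiff_const)

theorem L_sq (c : Ctx) (Z p : E) :
    c.L Z (fun y => ‖y - p‖ ^ 2) p = 2 * ‖Z‖ ^ 2 + 2 * ‖c.J p Z‖ ^ 2 := by
  have h1 : fderiv ℝ (fun y : E => ‖y - p‖ ^ 2) = fun y => (2 : ℝ) • innerSL ℝ (y - p) := by
    funext y
    have h := ((hasFDerivAt_id y).sub_const p).norm_sq
    rw [show (fun y : E => ‖y - p‖ ^ 2) = fun y : E => ‖id y - p‖ ^ 2 from rfl, h.fderiv]
    ext v
    simp
  have h2 : fderiv ℝ (fun y : E => (2 : ℝ) • innerSL ℝ (y - p)) p =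
      (2 : ℝ) • (innerSL ℝ : E →L[ℝ] E →L[ℝ] ℝ) := by
    have h := ((innerSL ℝ : E →L[ℝ] E →L[ℝ] ℝ).hasFDerivAt.comp p
      ((hasFDerivAt_id p).sub_const p)).const_smul (2 : ℝ)
    rw [ContinuousLinearMap.comp_id] at h
    exact h.fderiv
  have h3 : ∀ X : E, (innerSL ℝ : E →L[ℝ] E →L[ℝ] ℝ) X X = ‖X‖ ^ 2 := fun X =>
    real_inner_self_eq_norm_sq X
  simp only [Ctx.L, h1, h2, smul_apply, h3, sub_self, map_zero, zero_apply,
    smul_eq_mul, mul_zero, add_zero]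

theorem psh_congr (c : Ctx) {U : Set E} {u u' : E → ℝ} (h : c.Psh U u) (he : EqOn u u' U) :
    c.Psh U u' := by
  refine ⟨?_, ?_⟩
  · intro x hx y hy
    have h1 := h.1 x hx y (show u x < y by rw [he hx]; exact hy)
    filter_upwards [h1, self_mem_nhdsWithin] with z hz hzU
    show u' z < y
    rw [← he hzU]
    exact hz
  · intro γ hγ hm hh r hr0 hr1
    have h1 := h.2 γ hγ hm hh r hr0 hr1
    rw [← he (hm (mem_ball_self one_pos))]
    refine h1.trans (le_of_eq ?_)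
    refine Real.circleAverage_congr_sphere fun z hz => ?_
    refine he (hm ?_)
    rw [abs_of_pos hr0] at hz
    exact sphere_subset_ball hr1 hz

theorem density (h1 : SB1) (h2 : SB2) (h3 : SB3) (c : Ctx) (φ : E → ℝ) (hφ : ContDiff ℝ ∞ φ)
    (P : E →L[ℝ] ℝ) (x : E) :
    (maDensity c.J φ P P x).re = Eden c.J φ (cov P) (cov P) x / 4 := by
  have t1 := h1.t1 c.J c.smooth c.sq φ hφ P x
  have t23 := h2.t23 c.J c.smooth c.sq φ hφ P x
  have t5 := h2.t5 c.J c.smooth c.sq P x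
  have t4 := h3 c.J c.smooth c.sq P x
  rw [Complex.add_re] at t23
  simp only [maDensity, t4, Complex.add_re, Complex.sub_re, Complex.re_ofReal_mul,
    Complex.neg_re, t1, t5, Eden]
  linarith

theorem orient_eq (h1 : SB1) (c : Ctx) (x : E) : orient (c.J x) = c.o := by
  have hp := c.o_pos x
  rw [orient, h1.kah _ (c.sq x)]
  rcases c.o_sign with ho | ho
  · rw [ho] at hp ⊢
    rw [sign_pos (by linarith)]
    simp
  · rw [ho] at hp ⊢
    rw [sign_neg (by linarith)]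
    simp

theorem maPair_eq (h1 : SB1) (h2 : SB2) (h3 : SB3) (c : Ctx) (J : E → E →L[ℝ] E) (p : E)
    (r : ℝ) (hJ : ∀ y ∈ ball p r, J y = c.J y) (φ : E → ℝ) (hφ : ContDiff ℝ ∞ φ)
    (G : E → E →L[ℝ] ℝ) :
    maPair J (ball p r) φ G G =
      (∫ x in ball p r, c.o * Eden c.J φ (cov (G x)) (cov (G x)) x) / 4 := by
  rw [maPair, ← integral_div]
  refine setIntegral_congr_fun measurableSet_ball fun y hy => ?_
  have hev : J =ᶠ[𝓝 y] c.J := by
    filter_upwards [isOpen_ball.mem_nhds hy] with z hz using hJ z hz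
  rw [h1.congr J c.J y hev, hJ y hy, orient_eq h1, density h1 h2 h3 c φ hφ]
  ring

universe uu

theorem exists_point {M : Type uu} [TopologicalSpace M] {Ω K : Set M} (hK : IsCompact K)
    (F : M → ℝ) (C : ℝ) (hC : ∀ x ∈ Ω, F x ≤ C) (hout : ∀ x ∈ Ω \ K, F x ≤ 0) {z : M}
    (hz : z ∈ Ω) (hpos : 0 < F z) :
    ∃ m : ℝ, (∀ x ∈ Ω, F x ≤ m) ∧ ∃ x₀ ∈ K, ∀ γ : ℝ, 0 < γ → ∀ U ∈ 𝓝 x₀,
      ∃ x ∈ U, x ∈ Ω ∧ m - γ < F x := by
  have hbdd : BddAbove (F '' Ω) := ⟨C, by rintro _ ⟨x, hx, rfl⟩; exact hC x hx⟩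
  have hle : ∀ x ∈ Ω, F x ≤ sSup (F '' Ω) := fun x hx => le_csSup hbdd ⟨x, hx, rfl⟩
  refine ⟨sSup (F '' Ω), hle, ?_⟩
  by_contra hcon
  push Not at hcon
  have hmain : ∃ γ : ℝ, 0 < γ ∧ ∀ x ∈ K, x ∈ Ω → F x ≤ sSup (F '' Ω) - γ := by
    refine hK.induction_on (p := fun s => ∃ γ : ℝ, 0 < γ ∧ ∀ x ∈ s, x ∈ Ω →
      F x ≤ sSup (F '' Ω) - γ) ⟨1, one_pos, by simp⟩ ?_ ?_ ?_
    · rintro s t hst ⟨γ, hγ, h⟩
      exact ⟨γ, hγ, fun x hx => h x (hst hx)⟩
    · rintro s t ⟨γ, hγ, h⟩ ⟨γ', hγ', h'⟩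
      refine ⟨min γ γ', lt_min hγ hγ', ?_⟩
      rintro x (hx | hx) hxΩ
      · linarith [h x hx hxΩ, min_le_left γ γ']
      · linarith [h' x hx hxΩ, min_le_right γ γ']
    · intro x hx
      obtain ⟨γ, hγ, U, hU, h⟩ := hcon x hx
      exact ⟨U, mem_nhdsWithin_of_mem_nhds hU, γ, hγ, h⟩
  obtain ⟨γ, hγ, h⟩ := hmain
  have hm : 0 < sSup (F '' Ω) := hpos.trans_le (hle z hz)
  have hub : sSup (F '' Ω) ≤ max (sSup (F '' Ω) - γ) 0 := by
    refine csSup_le ⟨_, z, hz, rfl⟩ ?_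
    rintro _ ⟨x, hx, rfl⟩
    by_cases hxK : x ∈ K
    · exact (h x hxK hx).trans (le_max_left _ _)
    · exact (hout x ⟨hx, hxK⟩).trans (le_max_right _ _)
  rcases le_max_iff.1 hub with h1 | h1 <;> linarith

theorem main (h1 : SB1) (h2 : SB2) (h3 : SB3) (hL : SPshL) (hC : SChart.{uu}) (hloc : SLocal) :
    SMain.{uu} := by
  intro M _ _ _ _ J hJ Ω hΩ u v hu hv hub hvb hMA K hK hKΩ hout z hz
  obtain ⟨Cu, hCu⟩ := hub
  obtain ⟨Cv, hCv⟩ := hvb
  obtain ⟨hΩo, -, -, W, ρ, hWo, hΩW, hρ, hρs, hΩeq, -⟩ := hΩ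
  have hρneg : ∀ x ∈ Ω, ρ x < 0 := by
    intro x hx
    rw [hΩeq] at hx
    exact hx.2
  have hΩW' : Ω ⊆ W := subset_closure.trans hΩW
  by_contra hcon
  push Not at hcon
  have hρz := hρneg z hz
  set ε : ℝ := (u z - v z) / (2 * (-ρ z)) with hε
  have hεpos : 0 < ε := div_pos (by linarith) (by linarith)
  have hερ : ε * ρ z = -(u z - v z) / 2 := by
    rw [hε]
    have : ρ z ≠ 0 := hρz.ne
    field_simp
  obtain ⟨m, hm, x₀, hx₀K, hx₀⟩ := exists_point hK (fun x => u x + ε * ρ x - v x) (Cu + Cv)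
    (fun x hx => by
      have a1 := (abs_le.1 (hCu x hx)).2
      have a2 := (abs_le.1 (hCv x hx)).1
      have a3 := mul_neg_of_pos_of_neg hεpos (hρneg x hx)
      show u x + ε * ρ x - v x ≤ Cu + Cv
      linarith)
    (fun x hx => by
      have a1 := hout x hx
      have a3 := mul_neg_of_pos_of_neg hεpos (hρneg x hx.1)
      show u x + ε * ρ x - v x ≤ 0
      linarith) hz
    (by
      show 0 < u z + ε * ρ z - v z
      linarith)
  have hx₀Ω : x₀ ∈ Ω := hKΩ hx₀K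
  obtain ⟨c, R, ret, hR, hret, hretid, hretm, hcJ, hpsh⟩ := hC M J hJ x₀ Ω hΩo hx₀Ω
  set p : E := chartAt E x₀ x₀ with hp
  have htar : ∀ y ∈ ball p R, y ∈ (chartAt E x₀).target := by
    intro y hy
    rw [← hretid y hy]
    exact (hretm y).1
  have hmaps : MapsTo (chartAt E x₀).symm (ball p R) Ω := by
    intro y hy
    rw [← hretid y hy]
    exact (hretm y).2
  let ρ' : E → ℝ := fun y => ρ ((chartAt E x₀).symm (ret y))
  have hρ' : ContDiff ℝ ∞ ρ' := by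
    have a1 : ContMDiff 𝓘(ℝ, E) 𝓘(ℝ, E) ∞ ((chartAt E x₀).symm ∘ ret) :=
      (contMDiffOn_chart_symm (I := 𝓘(ℝ, E)) (n := ∞)).comp_contMDiff hret.contMDiff
        (fun y => (hretm y).1)
    have a2 : ContMDiff 𝓘(ℝ, E) 𝓘(ℝ, ℝ) ∞ (ρ ∘ ((chartAt E x₀).symm ∘ ret)) :=
      hρ.comp_contMDiff a1 (fun y => hΩW' (hretm y).2)
    exact a2.contDiff
  have hLρ : ∀ Z : E, Z ≠ 0 → 0 < c.L Z ρ' p := by
    intro Z hZ
    obtain ⟨b, -, hb⟩ := (SmoothBumpFunction.nhds_basis_tsupport (I := 𝓘(ℝ, E)) x₀).mem_iff.1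
      (hWo.mem_nhds (hΩW' hx₀Ω))
    let g : M → ℝ := fun x => -‖chartAt E x₀ x - p‖ ^ 2
    have hg : ContMDiffOn 𝓘(ℝ, E) 𝓘(ℝ, ℝ) ∞ g (chartAt E x₀).source :=
      (contDiff_sq p).neg.contMDiff.comp_contMDiffOn (contMDiffOn_chart (I := 𝓘(ℝ, E)) (n := ∞))
    obtain ⟨ε₀, hε₀, hφ⟩ := hρs.2 (fun x => b x • g x) (b.contMDiff_smul hg)
      (b.hasCompactSupport.smul_right) ((tsupport_smul_subset_left _ _).trans hb)
    have hpsh2 := hφ (ε₀ / 2) (by positivity) (by linarith)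
    have hb1 : ∀ᶠ y in 𝓝 p, b ((chartAt E x₀).symm y) = 1 := by
      have a1 : ContinuousAt (chartAt E x₀).symm p :=
        (chartAt E x₀).continuousAt_symm (mem_chart_target E x₀)
      have a2 : (chartAt E x₀).symm p = x₀ := (chartAt E x₀).left_inv (mem_chart_source E x₀)
      have a3 : ∀ᶠ x in 𝓝 ((chartAt E x₀).symm p), b x = 1 := by
        rw [a2]
        exact b.eventuallyEq_one
      exact a1.eventually a3
    obtain ⟨r₀, hr₀, hr₀b⟩ := Metric.eventually_nhds_iff_ball.1 hb1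
    have hrR : min r₀ R ≤ R := min_le_right _ _
    have hpsh3 := hpsh W _ (min r₀ R) hrR hpsh2
      (fun y hy => hΩW' (hmaps (ball_subset_ball hrR hy)))
    have hpsh4 : c.Psh (ball p (min r₀ R))
        (fun y => 1 * ρ' y + (-(ε₀ / 2)) * ‖y - p‖ ^ 2) := by
      refine psh_congr c hpsh3 fun y hy => ?_
      have a1 : y ∈ ball p R := ball_subset_ball hrR hy
      have a2 := hr₀b y (ball_subset_ball (min_le_left _ _) hy)
      simp only [Function.comp_apply, ρ', g, hretid y a1, a2, smul_eq_mul,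
        (chartAt E x₀).right_inv (htar y a1)]
      ring
    have hfin := hL c _ _ p isOpen_ball (mem_ball_self (lt_min hr₀ hR))
      ((contDiff_const.mul hρ').add (contDiff_const.mul (contDiff_sq p))) hpsh4 Z
    rw [L_lin c Z hρ' (contDiff_sq p), L_sq] at hfin
    have a1 : 0 < ‖Z‖ ^ 2 := by positivity
    have a2 : 0 ≤ ‖c.J p Z‖ ^ 2 := by positivity
    nlinarith
  refine hloc c p R (max Cu Cv) m (u ∘ (chartAt E x₀).symm) (v ∘ (chartAt E x₀).symm)
    (fun y => ε * ρ' y + 0 * ρ' y) hR (hpsh Ω u R le_rfl hu hmaps) (hpsh Ω v R le_rfl hv hmaps)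
    (fun y hy => (hCu _ (hmaps hy)).trans (le_max_left _ _))
    (fun y hy => (hCv _ (hmaps hy)).trans (le_max_right _ _)) ?_
    ((contDiff_const.mul hρ').add (contDiff_const.mul hρ')) ?_ ?_ ?_
  · intro r hr hrR Gu Gv hGu hGv φ hφ hφ0
    have hsub : ball p r ⊆ ball p R := ball_subset_ball hrR
    have h := hMA x₀ (ball p r) isOpen_ball (fun y hy => htar y (hsub hy))
      (fun y hy => hmaps (hsub hy)) Gu Gv hGu hGv φ hφ hφ0
    rw [maPair_eq h1 h2 h3 c _ p r (fun y hy => hcJ y (hsub hy)) φ hφ.1,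
      maPair_eq h1 h2 h3 c _ p r (fun y hy => hcJ y (hsub hy)) φ hφ.1] at h
    linarith
  · intro Z hZ
    rw [L_lin c Z hρ' hρ']
    have := mul_pos hεpos (hLρ Z hZ)
    linarith
  · intro y hy
    have h := hm _ (hmaps hy)
    simp only [Function.comp_apply, ρ', hretid y hy]
    linarith
  · intro γ hγ
    have hU : (chartAt E x₀).source ∩ chartAt E x₀ ⁻¹' ball p (min γ R) ∈ 𝓝 x₀ := by
      refine inter_mem (chart_source_mem_nhds E x₀) ?_
      exact (chartAt E x₀).continuousAt (mem_chart_source E x₀) (ball_mem_nhds _ (lt_min hγ hR))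
    obtain ⟨x, ⟨hxs, hxb⟩, hxΩ, hx⟩ := hx₀ γ hγ _ hU
    refine ⟨chartAt E x₀ x, ball_subset_ball (min_le_left _ _) hxb, ?_⟩
    have a1 : chartAt E x₀ x ∈ ball p R := ball_subset_ball (min_le_right _ _) hxb
    simp only [Function.comp_apply, ρ', hretid _ a1, (chartAt E x₀).left_inv hxs]
    linarith

end Pool.Agent.MP_13e7a1_an.H61
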